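import Pool.Agent.Lib.helper10.Con2
import Pool.Agent.Lib.helper10.Con3
import Pool.Agent.Lib.helper10.FPT

namespace Pool.Agent.Results.MP_09c861_lc.Counter

open Pool.Agent.Cx Pool.Agent.Cx.Con Pool.Agent.Cis List Function Polynomial

abbrev I := List (List Bool) × ℕ
abbrev Z := I × Bool

def ga (z : Z) (a b : ℕ) : Prop := a ≠ b ∧ ¬ ent z.1.1 a b = z.2
instance (z : Z) : DecidableRel (ga z) := fun _ _ => by unfold ga; infer_instance
def xs (z : Z) : List ℕ := (range z.1.1.length).filter fun v =>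
  decide (36 + 2 * z.1.2 < (range z.1.1.length).countP fun y => decide (ga z v y))
def nb (z : Z) (u : ℕ) : List ℕ :=
  (range z.1.1.length).filter fun y => decide (ga z u y ∧ ¬ u ∈ xs z ∧ ¬ y ∈ xs z)
def ad (z : Z) (v : ℕ) (w : List ℕ) : ℕ := w.foldl (fun u i => (nb z u).getD i u) v
def W (y : I) : List (List ℕ) := words (range (36 + 2 * y.2)) (12 * (2 * y.2 + 1)) y.1.length
def probes (z : Z) : List (List ℕ × List ℕ × ℕ) := (W z.1).flatMap fun w => (W z.1).flatMap fun w' =>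
  (0 :: 1 :: (xs z).map fun x => x + 2).map fun c => (w, w', c)
def ty (z : Z) (v : ℕ) : List Bool := (probes z).map fun p => decide
  ((p.2.2 = 0 ∧ ad z v p.1 = ad z v p.2.1) ∨ (p.2.2 = 1 ∧ ga z (ad z v p.1) (ad z v p.2.1)) ∨
    (1 < p.2.2 ∧ ga z (ad z v p.1) (p.2.2 - 2)))
def reps (z : Z) (t : List Bool) : List ℕ := ((range z.1.1.length).filter fun u =>
  decide (¬ u ∈ xs z ∧ ty z u = t)).take (2 * z.1.2 * (W z.1).length + 1)
def rs (z : Z) (y : ℕ) : Prop :=
  y ∈ xs z ∨ ∃ v < z.1.1.length, ∃ u ∈ reps z (ty z v), ∃ w ∈ W z.1, ad z u w = y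
def pw (y : I) : ℕ := (fun x => min (x * (36 + 2 * y.2 + 1)) (y.1.length + 1))^[12 * (2 * y.2 + 1)] 1
open Classical in
noncomputable def RR (y : I) : List ℕ := (range y.1.length).filter fun a =>
  decide (y.1.length < pw y ∨ ∃ b ∈ [false, true], (xs (y, b)).length ≤ 2 * y.2 ∧ rs (y, b) a)
noncomputable def EE (y : I) : List (ℕ × ℕ) := (RR y).flatMap fun a => (RR y).map fun b => (a, b)
def rc (n : ℕ) (L : List (ℕ × ℕ)) (a : ℕ) : List ℕ := clo n (fun D x =>
  decide (x ∈ D ∨ ∃ p ∈ L, (p.1 ∈ D ∧ p.2 = x) ∨ (p.2 ∈ D ∧ p.1 = x))) [a]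
def ca (M : List (List Bool)) (L : List (ℕ × ℕ)) (a b : ℕ) : Prop :=
  ∃ c ∈ rc M.length L a, ∃ d ∈ rc M.length L b, ent M c d = true
def aN (M : List (List Bool)) (L : List (ℕ × ℕ)) (a b : ℕ) : Prop := ¬ b ∈ rc M.length L a ∧ ca M L a b
def nN (M : List (List Bool)) (L : List (ℕ × ℕ)) (a b : ℕ) : Prop := ¬ b ∈ rc M.length L a ∧ ¬ ca M L a b
def bad (M : List (List Bool)) (L : List (ℕ × ℕ)) : Prop :=
  (∃ c < M.length, ∃ a < M.length, ∃ b < M.length, ∃ d < M.length, ∃ e < M.length, aN M L c a ∧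
    aN M L c b ∧ nN M L a b ∧ aN M L c d ∧ nN M L a d ∧ nN M L b d ∧ aN M L c e ∧ nN M L a e ∧
    nN M L b e ∧ nN M L d e) ∨ ∃ a < M.length, ∃ b < M.length, ∃ c < M.length, ∃ v < M.length,
    aN M L a b ∧ aN M L a c ∧ aN M L b c ∧ nN M L v a ∧ nN M L v b ∧ nN M L v c
def test (y : I) (m : ℕ) : Prop := IsGraph y.1 ∧ ∃ L ∈ words (EE y) y.2 m,
  (¬ ∃ p ∈ L, ¬ (p.1 < y.1.length ∧ p.2 < y.1.length ∧ ent y.1 p.1 p.2 = true)) ∧ ¬ bad y.1 L

lemma ad_lt (z : Z) (v : ℕ) (w : List ℕ) : ad z v w = v ∨ ad z v w < z.1.1.length := by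
  induction w using List.reverseRecOn with
  | nil => exact Or.inl rfl
  | append_singleton w i ih =>
    rw [ad, foldl_concat, ← ad, getD_eq_getElem?_getD]
    rcases e : (nb z (ad z v w))[i]? with _ | x
    · exact ih
    · exact Or.inr (by simpa using (mem_filter.1 (mem_of_getElem? e)).1)

lemma pw_eq (y : I) (i : ℕ) : (fun x => min (x * (36 + 2 * y.2 + 1)) (y.1.length + 1))^[i] 1 =
    min ((36 + 2 * y.2 + 1) ^ i) (y.1.length + 1) := by
  induction i with
  | zero => simp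
  | succ i ih =>
    rw [iterate_succ_apply', ih, pow_succ, min_mul]
    have : y.1.length + 1 ≤ (y.1.length + 1) * (36 + 2 * y.2 + 1) := Nat.le_mul_of_pos_right _ (by omega)
    omega

lemma pt_RR : PT RR := by
  classical
  have a1 : PP fun p : Z × ℕ × ℕ => ga p.1 p.2.1 p.2.2 := by unfold ga; fun_prop
  have a2 : PT xs := PT.filter (PP.decide (PP.lt (by fun_prop)
    (PT.countP (PP.decide (by fun_prop)) (by fun_prop)))) (by fun_prop)
  have a3 : PT fun p : Z × ℕ => nb p.1 p.2 := PT.filter (PP.decide (by fun_prop)) (by fun_prop)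
  have a4 : PT fun p : Z × ℕ × List ℕ => ad p.1 p.2.1 p.2.2 :=
    PT.foldl (by fun_prop) (by fun_prop) (by fun_prop) (2 * X + 1) fun ⟨⟨⟨M, k⟩, b⟩, v, w⟩ i => by
      have := ad_lt ((M, k), b) v (w.take i)
      have := length_lt_size M
      change size (ad _ v (w.take i)) ≤ _
      simp at *; omega
  have a5 : PT W := by unfold W; fun_prop
  have a6 : PT probes := by unfold probes; fun_prop
  have a7 : PT fun p : Z × ℕ => ty p.1 p.2 := PT.map (PP.decide (by fun_prop)) (by fun_prop)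
  have a8 : PT fun p : Z × List Bool => reps p.1 p.2 :=
    PT.take (by fun_prop) (PT.filter (PP.decide (by fun_prop)) (by fun_prop))
  have a9 : PP fun p : Z × ℕ => rs p.1 p.2 := by unfold rs; fun_prop
  have b1 : PT pw := PT.iterate (by fun_prop) (by fun_prop) (by fun_prop) (2 * X + 1) fun ⟨M, k⟩ i _ => by
    have := length_lt_size M
    rw [pw_eq]; simp; omega
  exact PT.filter (PP.decide (by fun_prop)) (by fun_prop)

lemma pp_test : PP fun p : I × ℕ => test p.1 p.2 := by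
  have a0 := pp_isGraph
  have a1 := pt_RR
  have a2 : PT EE := by unfold EE; fun_prop
  have a3 : PT fun p : ℕ × List (ℕ × ℕ) × ℕ => rc p.1 p.2.1 p.2.2 :=
    PT.clo (by fun_prop) (PP.decide (by fun_prop)) (by fun_prop)
  have a4 : PP fun p : List (List Bool) × List (ℕ × ℕ) × ℕ × ℕ => ca p.1 p.2.1 p.2.2.1 p.2.2.2 := by
    unfold ca; fun_prop
  have a5 : PP fun p : List (List Bool) × List (ℕ × ℕ) × ℕ × ℕ => aN p.1 p.2.1 p.2.2.1 p.2.2.2 := by
    unfold aN; fun_prop
  have a6 : PP fun p : List (List Bool) × List (ℕ × ℕ) × ℕ × ℕ => nN p.1 p.2.1 p.2.2.1 p.2.2.2 := by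
    unfold nN; fun_prop
  have a7 : PP fun p : List (List Bool) × List (ℕ × ℕ) => bad p.1 p.2 := by unfold bad; fun_prop
  unfold test; fun_prop

lemma mem_rc {n : ℕ} (L : List (Fin n × Fin n)) (a : Fin n) (b : ℕ) :
    b ∈ rc n (L.map (Prod.map Fin.val Fin.val)) a ↔ ∃ h, R L a ⟨b, h⟩ := by
  constructor
  · refine clo_ind [a.1] (P := fun b => ∃ h, R L a ⟨b, h⟩) (by simp [R.refl]) (fun E h x _ e => ?_) b
    simp only [decide_eq_true_eq, mem_map, exists_exists_and_eq_and, Prod.map] at e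
    rcases e with e | ⟨p, e, ⟨c, rfl⟩ | ⟨c, rfl⟩⟩
    exacts [h _ e, ⟨p.2.2, (h _ c).2.tail (Or.inl e)⟩, ⟨p.1.2, (h _ c).2.tail (Or.inr e)⟩]
  · rintro ⟨h, r⟩
    change (⟨b, h⟩ : Fin n).1 ∈ _
    generalize (⟨b, h⟩ : Fin n) = b at *
    induction r with
    | refl => exact sub_clo (by simp +contextual) _ (by simp) a.2
    | @tail c d _ e ih =>
      refine clo_fix (by simp +contextual) _ d.2 (decide_eq_true (Or.inr ?_))
      exact e.elim (fun e => ⟨_, mem_map_of_mem e, Or.inl ⟨ih, rfl⟩⟩)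
        fun e => ⟨_, mem_map_of_mem e, Or.inr ⟨ih, rfl⟩⟩

lemma bad_iff {M : List (List Bool)} (h : IsGraph M) (L : List (Fin M.length × Fin M.length)) :
    bad M (L.map (Prod.map Fin.val Fin.val)) ↔ Bad (graphOf M) L := by
  have a : ∀ a b : Fin M.length, ca M (L.map (Prod.map Fin.val Fin.val)) a b ↔ CA (graphOf M) L a b :=
    fun a b => by
      simp only [ca, CA, mem_rc, adj_iff h]
      exact ⟨fun ⟨_, ⟨_, x⟩, _, ⟨_, y⟩, e⟩ => ⟨_, _, x, y, e⟩, fun ⟨c, d, x, y, e⟩ =>
        ⟨_, ⟨c.2, x⟩, _, ⟨d.2, y⟩, e⟩⟩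
  have b : ∀ a b : Fin M.length, A (graphOf M) L a b ↔ aN M (L.map (Prod.map Fin.val Fin.val)) a b :=
    fun _ _ => by simp [A, aN, a, mem_rc]
  have c : ∀ a b : Fin M.length, N (graphOf M) L a b ↔ nN M (L.map (Prod.map Fin.val Fin.val)) a b :=
    fun _ _ => by simp [N, nN, a, mem_rc]
  simp only [bad, Bad, Con.St, Tr, b, c, Fin.exists_iff, exists_prop]

def Gm (z : Z) : SimpleGraph (Fin z.1.1.length) := if z.2 then (graphOf z.1.1)ᶜ else graphOf z.1.1
def XS (z : Z) : Set (Fin z.1.1.length) := {v | v.1 ∈ xs z}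

section
variable {z : Z} (h : IsGraph z.1.1)
include h

lemma gm_adj (a b : Fin z.1.1.length) : (Gm z).Adj a b ↔ ga z a b := by
  obtain ⟨⟨M, k⟩, _ | _⟩ := z
  · change (graphOf M).Adj a b ↔ _
    rw [adj_iff h]
    simpa [ga, Fin.val_inj] using fun e : ent M a b = true => ((adj_iff h a b).2 e).ne
  · simp [Gm, ga, adj_iff h, Fin.val_inj]

lemma ad_nr (v : Fin z.1.1.length) (w : List ℕ) : ∃ e, Nr (Gm z) (XS z) w.length v ⟨ad z v w, e⟩ := by
  induction w using List.reverseRecOn with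
  | nil => exact ⟨v.2, rfl⟩
  | append_singleton w i ih =>
    obtain ⟨e, ih⟩ := ih
    have q : ad z v (w ++ [i]) = (nb z (ad z v w))[i]?.getD (ad z v w) := by
      rw [ad, foldl_concat, ← ad, getD_eq_getElem?_getD]
    rcases c : (nb z (ad z v w))[i]? with _ | x <;> rw [c] at q <;>
      simp only [q, Option.getD, length_append, length_singleton]
    · exact ⟨e, _, ih, Or.inl rfl⟩
    · have := mem_filter.1 (mem_of_getElem? c)
      exact ⟨by simpa using this.1, _, ih, Or.inr (by simpa [gm_adj h, XS] using this.2)⟩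

lemma nr_ad {r : ℕ} {v a : Fin z.1.1.length} (e : Nr (Gm z) (XS z) r v a) :
    ∃ w : List ℕ, w.length ≤ r ∧ (∀ i ∈ w, i ∈ range (36 + 2 * z.1.2)) ∧ ad z v w = a := by
  induction r generalizing a with
  | zero => exact ⟨[], by simp, by simp, congrArg _ e⟩
  | succ r ih =>
    obtain ⟨c, e, rfl | ⟨x, y, q⟩⟩ := e
    · exact let ⟨w, a, b⟩ := ih e; ⟨w, by omega, b⟩
    obtain ⟨w, w1, w2, w3⟩ := ih e
    obtain ⟨i, hi, i2⟩ := getElem_of_mem (show a.1 ∈ nb z c by simpa [nb, ← gm_adj h, x] using ⟨y, q⟩)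
    refine ⟨w ++ [i], by simpa, ?_, by rw [ad, foldl_concat, ← ad, w3, getD_eq_getElem _ _ hi, i2]⟩
    have : (nb z c).length ≤ (range z.1.1.length).countP fun y => decide (ga z c y) := by
      rw [nb, ← countP_eq_length_filter]
      exact countP_mono_left fun _ _ => by simp +contextual
    simp only [XS, xs, Set.mem_ofPred_eq, mem_filter, mem_range, c.2, decide_eq_true_eq, true_and] at y
    simp only [mem_append, mem_singleton]
    rintro _ (j | rfl)
    exacts [w2 _ j, mem_range.2 (by omega)]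

lemma near (hn : ¬ z.1.1.length < pw z.1) (v : Fin z.1.1.length) (hv : ¬ rs z v) : v ∉ XS z ∧
    ∀ T : Finset (Fin z.1.1.length), T.card ≤ 2 * z.1.2 → ∃ w ∉ XS z,
      Sim (Gm z) (XS z) (6 * (2 * z.1.2 + 1)) v w ∧
      (∀ a, Nr (Gm z) (XS z) (6 * (2 * z.1.2 + 1)) w a → rs z a) ∧
      ∀ t ∈ T, ¬ Nr (Gm z) (XS z) (6 * (2 * z.1.2 + 1) + 6 * (2 * z.1.2 + 1)) t w := by
  have hW := (mem_words (l := range (36 + 2 * z.1.2)) (k := 12 * (2 * z.1.2 + 1)) (m := z.1.1.length)
    (by rw [pw, pw_eq] at hn; simp at hn ⊢; omega)).2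
  have nw : ∀ {r : ℕ} {v a : Fin z.1.1.length}, r ≤ 12 * (2 * z.1.2 + 1) → Nr (Gm z) (XS z) r v a →
      ∃ w ∈ W z.1, w.length ≤ r ∧ ad z v w = a := fun c e =>
    let ⟨w, a, b, d⟩ := nr_ad h e; ⟨w, hW w (a.trans c) b, a, d⟩
  have v1 : v.1 ∉ xs z := fun e => hv (Or.inl e)
  refine ⟨v1, fun T hT => ?_⟩
  have v2 : v.1 ∉ reps z (ty z v) := fun e => hv (Or.inr ⟨v, v.2, v, e, [], hW _ (by simp) (by simp), rfl⟩)
  obtain ⟨w, w1, w2⟩ := Finset.exists_mem_notMem_of_card_lt_card (t := (reps z (ty z v)).toFinset)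
    (s := T.biUnion fun t => ((W z.1).map (ad z t)).toFinset) (by
      rw [reps, toFinset_card_of_nodup ((nodup_range.filter _).sublist (take_sublist _ _))]
      refine ((Finset.card_biUnion_le_card_mul _ _ (W z.1).length fun _ _ =>
        (toFinset_card_le _).trans (by simp)).trans (Nat.mul_le_mul_right _ hT)).trans_lt ?_
      by_contra c
      rw [reps, take_of_length_le (by rw [length_take] at c; omega)] at v2
      simp [v1] at v2)
  rw [mem_toFinset] at w1
  have w3 := mem_of_mem_take w1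
  simp only [mem_filter, mem_range, decide_eq_true_eq] at w3
  lift w to Fin z.1.1.length using w3.1
  have l : ∀ (v : Fin z.1.1.length) w, ad z v w < z.1.1.length := fun v w => (ad_nr h v w).1
  refine ⟨w, w3.2.1, ⟨fun a b => ∃ u ∈ W z.1, ad z v u = a ∧ ad z w u = b, fun r c a e => ?_,
    fun r c a e => ?_, ?_, ?_⟩, fun a e => ?_, fun t ht e => w2 ?_⟩
  · obtain ⟨u, u1, u2, u3⟩ := nw (by omega) e
    exact ⟨_, (ad_nr h w u).2.mono u2, u, u1, u3, rfl⟩
  · obtain ⟨u, u1, u2, u3⟩ := nw (by omega) e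
    exact ⟨_, (ad_nr h v u).2.mono u2, u, u1, rfl, u3⟩
  · rintro a b c d ⟨u, u1, u2, u3⟩ ⟨s, s1, s2, s3⟩
    have e0 := map_inj_left.1 w3.2.2 (u, s, 0) (by simp [probes, u1, s1])
    have e1 := map_inj_left.1 w3.2.2 (u, s, 1) (by simp [probes, u1, s1])
    simp [u2, u3, s2, s3, Fin.val_inj] at e0 e1
    simp [gm_adj h, e0, e1]
  · rintro a b ⟨u, u1, u2, u3⟩ x e
    have e0 := map_inj_left.1 w3.2.2 (u, u, x + 2) (by simpa [probes, u1, XS] using e)
    simp [u2, u3] at e0
    simp [gm_adj h, e0]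
  · obtain ⟨u, u1, -, u3⟩ := nw (by omega) e
    exact Or.inr ⟨v, v.2, w, w1, u, u1, u3⟩
  · obtain ⟨u, u1, -, u3⟩ := nw (by omega) e
    simpa using ⟨t, ht, u, u1, u3⟩

end

def B (k : ℕ) : ℕ := (36 + 2 * k + 1) ^ (12 * (2 * k + 1))
def Bd (k : ℕ) : ℕ := B k + 2 * (2 * k + 3 ^ (B k * (B k * (2 * k + 2))) * ((2 * k * B k + 1) * B k))

lemma fm {α β : Type} {l : List α} {f : α → List β} {a b : ℕ} (h : l.length ≤ a)
    (g : ∀ x ∈ l, (f x).length ≤ b) : (l.flatMap f).length ≤ a * b := by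
  rw [length_flatMap]
  exact (sum_le_card_nsmul _ b (by simpa)).trans (by simpa using Nat.mul_le_mul_right b h)

lemma RR_le (y : I) : (RR y).length ≤ Bd y.2 := by
  by_cases hn : y.1.length < pw y
  · refine (length_filter_le _ _).trans (le_add_right ?_)
    rw [pw, pw_eq] at hn; simp at hn ⊢; exact hn.le
  have hW : (W y).length ≤ B y.2 := by
    simpa [W, B] using (mem_words (l := range (36 + 2 * y.2)) (k := 12 * (2 * y.2 + 1)) (m := y.1.length)
      (by rw [pw, pw_eq] at hn; simp at hn ⊢; omega)).1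
  have hT := mem_words (l := [false, true]) (k := B y.2 * (B y.2 * (2 * y.2 + 2))) le_rfl
  refine le_add_left (((subperm_of_subset (nodup_range.filter _) (l₂ := [false, true].flatMap fun b =>
    (xs (y, b)).take (2 * y.2) ++ (words [false, true] (B y.2 * (B y.2 * (2 * y.2 + 2)))
      (3 ^ (B y.2 * (B y.2 * (2 * y.2 + 2))))).flatMap fun t =>
      (reps (y, b) t).flatMap fun u => (W y).map (ad (y, b) u)) fun a e => ?_).length_le).trans
    (fm le_rfl fun b _ => ?_))
  · simp only [mem_filter, decide_eq_true_eq, hn, false_or] at e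
    obtain ⟨-, b, b1, b2, e⟩ := e
    refine mem_flatMap.2 ⟨b, b1, mem_append.2 (e.imp (by rw [take_of_length_le b2]; exact id) ?_)⟩
    rintro ⟨v, -, u, u1, w, w1, rfl⟩
    refine mem_flatMap.2 ⟨_, hT.2 _ ?_ (by simp), mem_flatMap.2 ⟨u, u1, mem_map_of_mem w1⟩⟩
    rw [ty, length_map]
    exact fm hW fun _ _ => fm hW fun _ _ => by simpa
  · rw [length_append]
    refine add_le_add (by simp) (fm hT.1 fun _ _ => fm ?_ fun _ _ => by simpa)
    rw [reps, length_take]
    exact (min_le_left _ _).trans (Nat.succ_le_succ (Nat.mul_le_mul_left _ hW))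

lemma prim_Bd : Primrec fun k => k * (Bd k * Bd k) := by
  have a : ∀ {f g : ℕ → ℕ}, Primrec f → Primrec g → Primrec fun k => f k + g k := Primrec.nat_add.comp
  have b : ∀ {f g : ℕ → ℕ}, Primrec f → Primrec g → Primrec fun k => f k * g k := Primrec.nat_mul.comp
  have c : ∀ {f g : ℕ → ℕ}, Primrec f → Primrec g → Primrec fun k => f k ^ g k := prim_pow.comp
  have d : Primrec fun k : ℕ => 2 * k := b (.const _) .id
  have e : Primrec B := c (a (a (.const _) d) (.const _)) (b (.const _) (a d (.const _)))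
  have f : Primrec Bd := a e (b (.const _) (a d (b (c (.const _) (b e (b e (a d (.const _)))))
    (b (a (b d e) (.const _)) e))))
  exact b .id (b f f)

theorem result : W2Hard (FreeCon {K14}) Prod.snd ∧ W2Hard (FreeCon {K1K3}) Prod.snd ∧
    InFPT (FreeCon {K14, K1K3}) Prod.snd := by
  classical
  refine ⟨w2_st, w2_tr, inFPT_of_pad (j := fun y => y.2 * ((RR y).length * (RR y).length))
    (F := fun p => decide (test p.1 p.2)) (PP.decide pp_test) (by have := pt_RR; fun_prop)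
    prim_Bd.to_comp (fun y => Nat.mul_le_mul_left _ (Nat.mul_le_mul (RR_le y) (RR_le y))) fun y => ?_⟩
  rw [decide_eq_true_eq, freeCon]
  refine and_congr_right fun h => ?_
  trans Sol (graphOf y.1) y.2 fun L => ¬ Bad (graphOf y.1) L
  · simp only [Set.mem_insert_iff, Set.mem_singleton_iff, forall_eq_or_imp, forall_eq, has_st, has_tr,
      Bad, not_or]
  constructor
  · intro s
    obtain ⟨L, l1, l2, l3, l4⟩ : Sol (graphOf y.1) y.2 fun L => ¬ Bad (graphOf y.1) L ∧
        ∀ a, ¬ U L a → a.1 ∈ RR y := by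
      by_cases hn : y.1.length < pw y
      · exact s.imp fun L l => ⟨l.1, l.2.1, l.2.2, by simp [RR, hn]⟩
      obtain ⟨L, l1, -, l3⟩ := id s
      obtain ⟨Γ, g1, g2⟩ := struct (fun e => l3 (Or.inl e)) fun e => l3 (Or.inr e)
      obtain ⟨b, rfl⟩ : ∃ b, Γ = Gm (y, b) := by
        simp only [mem_cons, not_mem_nil, or_false] at g1
        exact g1.elim (⟨false, ·⟩) (⟨true, ·⟩)
      have x : (xs (y, b)).length ≤ 2 * y.2 := by
        refine (subperm_of_subset (nodup_range.filter _) (l₂ := (tch L).toList.map Fin.val)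
          fun a e => ?_).length_le.trans (by have := card_tch (L := L); simp; omega)
        simp only [mem_filter, mem_range, decide_eq_true_eq] at e
        lift a to Fin y.1.length using e.1
        refine mem_map_of_mem (Finset.mem_toList.2 (mem_tch.2 fun c => ?_))
        have := g2 a c
        rw [← Finset.card_map Fin.valEmbedding] at this
        rw [countP_eq_length_filter, ← toFinset_card_of_nodup (nodup_range.filter _)] at e
        refine absurd (this.trans' (Finset.card_le_card fun i => ?_)) (not_le.2 (e.2.trans_le' (by omega)))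
        simp +contextual [gm_adj (z := (y, b)) h, Fin.exists_iff]
      refine (exch (S := {a | rs (y, b) a.1}) g1 le_rfl (near (z := (y, b)) h hn) s).imp fun L l =>
        ⟨l.1, l.2.1, l.2.2.1, fun a e => mem_filter.2 ⟨by simp, decide_eq_true (Or.inr
          ⟨b, by cases b <;> simp, x, l.2.2.2 a e⟩)⟩⟩
    refine ⟨L.map (Prod.map Fin.val Fin.val), (mem_words ?_).2 _ (by simpa) ?_, ?_, by rwa [bad_iff h]⟩
    · rw [mul_comm, pow_mul]
      exact Nat.pow_le_pow_left ((Nat.succ_le_succ (fm le_rfl (by simp))).trans Nat.lt_two_pow_self) _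
    · simp only [mem_map, forall_exists_index, and_imp, forall_apply_eq_imp_iff₂]
      exact fun p e => mem_flatMap.2 ⟨_, l4 _ fun c => (c p e).1 rfl,
        mem_map.2 ⟨_, l4 _ fun c => (c p e).2 rfl, rfl⟩⟩
    · simpa [adj_iff h] using l2
  · rintro ⟨L, l1, l2, l3⟩
    push Not at l2
    obtain ⟨L, rfl⟩ : ∃ L' : List (Fin y.1.length × Fin y.1.length),
        L'.map (Prod.map Fin.val Fin.val) = L := ⟨L.pmap (fun p e => (⟨p.1, e.1⟩, ⟨p.2, e.2.1⟩)) l2, by
      simp [map_pmap]⟩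
    exact ⟨L, by simpa using (words_len _ _ _ _ l1).1, fun p e => (adj_iff h _ _).2
      (l2 _ (mem_map_of_mem e)).2.2, by rwa [bad_iff h] at l3⟩

end Pool.Agent.Results.MP_09c861_lc.Counter
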